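import Mathlib

/-!
# Covers of sets of small Hausdorff dimension, slopes of the segments of Kakeya sets, pigeonhole
-/

set_option autoImplicit false

open MeasureTheory Set Metric
open scoped ENNReal NNReal

namespace Pool.Agent.W605.HD

/-- Efficient covers of a set of Hausdorff dimension less than `α`, sorted by scales. -/
theorem cover {X : Type*} [MetricSpace X] [MeasurableSpace X] [BorelSpace X] (K : Set X)
    (α : ℝ≥0) (h : dimH K < α) (k0 : ℕ) :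
    ∃ (t : ℕ → Set X) (κ : ℕ → ℕ), K ⊆ ⋃ i, t i ∧ (∀ i, k0 ≤ κ i) ∧
      (∀ i, ∀ x ∈ t i, ∀ y ∈ t i, dist x y ≤ (1 / 2 : ℝ) ^ κ i) ∧
      ∀ (k : ℕ) (S : Finset ℕ), (∀ i ∈ S, κ i = k) →
        (S.card : ℝ) ≤ (2 : ℝ) ^ ((α : ℝ) * (k + 1)) := by
  have hα : (0 : ℝ) < α := by
    have h1 : (0 : ℝ≥0∞) < α := lt_of_le_of_lt bot_le h
    exact_mod_cast h1
  obtain ⟨u, hu⟩ : ∃ u : ℝ, u = (1 / 2 : ℝ) ^ (α : ℝ) := ⟨_, rfl⟩
  have hu0 : 0 < u := by rw [hu]; positivity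
  have hu1 : u < 1 := by rw [hu]; exact Real.rpow_lt_one (by norm_num) (by norm_num) hα
  have h0 : Measure.hausdorffMeasure (α : ℝ) K = 0 := hausdorffMeasure_of_dimH_lt h
  rw [Measure.hausdorffMeasure_apply] at h0
  obtain ⟨ε, hε⟩ : ∃ ε : ℝ≥0∞, ε = ENNReal.ofReal (u ^ k0) / 2 := ⟨_, rfl⟩
  have hεpos : 0 < ε := by
    rw [hε]
    exact ENNReal.half_pos (by
      rw [Ne, ENNReal.ofReal_eq_zero, not_le]
      positivity)
  have h1 : (⨅ (t : ℕ → Set X) (_ : K ⊆ ⋃ n, t n) (_ : ∀ n, ediam (t n) ≤ 1),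
      ∑' n, ⨆ _ : (t n).Nonempty, ediam (t n) ^ (α : ℝ)) < ε := by
    refine lt_of_le_of_lt ?_ hεpos
    rw [← h0]
    exact le_iSup₂_of_le 1 one_pos le_rfl
  simp only [iInf_lt_iff] at h1
  obtain ⟨t, ht1, ht2, ht3⟩ := h1
  obtain ⟨δ, hδ0, hδs⟩ := ENNReal.exists_pos_sum_of_countable' hεpos.ne' ℕ
  obtain ⟨y, hy⟩ : ∃ y : ℕ → ℝ≥0∞,
    y = fun i => (⨆ _ : (t i).Nonempty, ediam (t i) ^ (α : ℝ)) + δ i := ⟨_, rfl⟩
  have hys : ∑' i, y i ≤ ENNReal.ofReal (u ^ k0) := by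
    rw [hy, ENNReal.tsum_add]
    calc _ ≤ ε + ε := add_le_add ht3.le hδs.le
      _ = _ := by rw [hε]; exact ENNReal.add_halves _
  have hyle : ∀ i, y i ≤ ENNReal.ofReal (u ^ k0) := fun i => (ENNReal.le_tsum i).trans hys
  have hyt : ∀ i, y i ≠ ⊤ := fun i => ne_top_of_le_ne_top ENNReal.ofReal_ne_top (hyle i)
  have hypos : ∀ i, 0 < y i := fun i => by
    rw [hy]
    exact lt_of_lt_of_le (hδ0 i) le_add_self
  have hY0 : ∀ i, 0 < (y i).toReal := fun i => ENNReal.toReal_pos (hypos i).ne' (hyt i)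
  have hYle : ∀ i, (y i).toReal ≤ u ^ k0 := fun i =>
    ENNReal.toReal_le_of_le_ofReal (by positivity) (hyle i)
  have hex : ∀ i, ∃ k : ℕ, u ^ (k + 1) < (y i).toReal ∧ (y i).toReal ≤ u ^ k := fun i =>
    exists_nat_pow_near_of_lt_one (hY0 i) ((hYle i).trans (pow_le_one₀ hu0.le hu1.le)) hu0 hu1
  choose κ hκ1 hκ2 using hex
  refine ⟨t, κ, ht1, ?_, ?_, ?_⟩
  · intro i
    by_contra hc
    push Not at hc
    have h2 : u ^ k0 ≤ u ^ (κ i + 1) := pow_le_pow_of_le_one hu0.le hu1.le hc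
    have h3 := hκ1 i
    have h4 := hYle i
    linarith
  · intro i x hx z hz
    have h2 : ediam (t i) ^ (α : ℝ) ≤ ENNReal.ofReal (u ^ κ i) := by
      have h3 : ediam (t i) ^ (α : ℝ) ≤ y i := by
        rw [hy]
        exact le_trans (le_iSup (fun _ : (t i).Nonempty => ediam (t i) ^ (α : ℝ)) ⟨x, hx⟩)
          le_self_add
      exact h3.trans ((ENNReal.le_ofReal_iff_toReal_le (hyt i) (by positivity)).2 (hκ2 i))
    have h3 : edist x z ^ (α : ℝ) ≤ ENNReal.ofReal (u ^ κ i) :=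
      (ENNReal.rpow_le_rpow (edist_le_ediam_of_mem hx hz) hα.le).trans h2
    have h4 : u ^ κ i = ((1 / 2 : ℝ) ^ κ i) ^ (α : ℝ) := by
      rw [hu, ← Real.rpow_natCast, ← Real.rpow_natCast, ← Real.rpow_mul (by norm_num),
        ← Real.rpow_mul (by norm_num), mul_comm]
    rw [edist_dist, ENNReal.ofReal_rpow_of_nonneg dist_nonneg hα.le, h4] at h3
    have h5 := (ENNReal.ofReal_le_ofReal_iff (by positivity)).1 h3
    exact (Real.rpow_le_rpow_iff dist_nonneg (by positivity) hα).1 h5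
  · intro k S hS
    have h2 : (S.card : ℝ) * u ^ (k + 1) ≤ 1 := by
      calc (S.card : ℝ) * u ^ (k + 1) = ∑ _i ∈ S, u ^ (k + 1) := by
            rw [Finset.sum_const, nsmul_eq_mul]
        _ ≤ ∑ i ∈ S, (y i).toReal := Finset.sum_le_sum fun i hi => by
            rw [← hS i hi]
            exact (hκ1 i).le
        _ = (∑ i ∈ S, y i).toReal := (ENNReal.toReal_sum fun i _ => hyt i).symm
        _ ≤ 1 := by
            refine ENNReal.toReal_le_of_le_ofReal zero_le_one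
              ((ENNReal.sum_le_tsum S).trans (hys.trans (ENNReal.ofReal_le_ofReal ?_)))
            exact pow_le_one₀ hu0.le hu1.le
    have h3 : u ^ (k + 1) * (2 : ℝ) ^ ((α : ℝ) * (k + 1)) = 1 := by
      have h4 : u ^ (k + 1) = (1 / 2 : ℝ) ^ ((α : ℝ) * (k + 1)) := by
        rw [hu, ← Real.rpow_natCast, ← Real.rpow_mul (by norm_num)]
        push_cast
        rfl
      rw [h4, ← Real.mul_rpow (by norm_num) (by norm_num)]
      norm_num
    have h4 : 0 < (2 : ℝ) ^ ((α : ℝ) * (k + 1)) := by positivity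
    calc (S.card : ℝ) = (S.card : ℝ) * u ^ (k + 1) * (2 : ℝ) ^ ((α : ℝ) * (k + 1)) := by
          rw [mul_assoc, h3, mul_one]
      _ ≤ 1 * (2 : ℝ) ^ ((α : ℝ) * (k + 1)) := mul_le_mul_of_nonneg_right h2 h4.le
      _ = _ := one_mul _

/-- Pigeonhole for an outer measure and a countable cover. -/
theorem pigeon {X : Type*} [MeasurableSpace X] (μ : Measure X) (V : Set X) (E : ℕ → Set X)
    (hV : V ⊆ ⋃ k, E k) (x ρ : ℝ) (hx : 0 < x) (hρ0 : 0 < ρ) (hρ1 : ρ < 1)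
    (hμ : ENNReal.ofReal x ≤ μ V) : ∃ k : ℕ, ENNReal.ofReal (x * (1 - ρ) / 2 * ρ ^ k) ≤ μ (E k) := by
  by_contra hcon
  push Not at hcon
  have h1 : μ V ≤ ∑' k, μ (E k) := (measure_mono hV).trans (measure_iUnion_le E)
  have h2 : ∑' k, μ (E k) ≤ ∑' k : ℕ, ENNReal.ofReal (x * (1 - ρ) / 2 * ρ ^ k) :=
    ENNReal.tsum_le_tsum fun k => (hcon k).le
  have hpos : 0 < x * (1 - ρ) / 2 := by
    have : 0 < 1 - ρ := by linarith
    positivity
  have hsum : Summable fun k : ℕ => x * (1 - ρ) / 2 * ρ ^ k :=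
    (summable_geometric_of_lt_one hρ0.le hρ1).mul_left _
  have h3 : ∑' k : ℕ, ENNReal.ofReal (x * (1 - ρ) / 2 * ρ ^ k) = ENNReal.ofReal (x / 2) := by
    rw [← ENNReal.ofReal_tsum_of_nonneg (fun k => by positivity) hsum, tsum_mul_left,
      tsum_geometric_of_lt_one hρ0.le hρ1]
    congr 1
    have : 1 - ρ ≠ 0 := by linarith
    field_simp
  have h4 : ENNReal.ofReal x ≤ ENNReal.ofReal (x / 2) := by
    rw [← h3]
    exact hμ.trans (h1.trans h2)
  have h5 := (ENNReal.ofReal_le_ofReal_iff (by positivity)).1 h4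
  linarith

/-- the point with the height `t` and the other coordinates `x` -/
noncomputable def pt (d : ℕ) (t : ℝ) (x : Fin d → ℝ) : EuclideanSpace ℝ (Fin (d + 1)) :=
  WithLp.toLp 2 (Fin.cons t x)

theorem pt_zero (d : ℕ) (t : ℝ) (x : Fin d → ℝ) : pt d t x 0 = t := rfl

theorem pt_succ (d : ℕ) (t : ℝ) (x : Fin d → ℝ) (i : Fin d) : pt d t x i.succ = x i := rfl

/-- Many of the segments of a Kakeya set are graphs over a common interval. -/
theorem slopes (d : ℕ) (K : Set (EuclideanSpace ℝ (Fin (d + 1))))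
    (hK : ∀ e : EuclideanSpace ℝ (Fin (d + 1)), ‖e‖ = 1 → ∃ a : EuclideanSpace ℝ (Fin (d + 1)),
      ∀ t ∈ Set.Icc (0 : ℝ) 1, a + t • e ∈ K) :
    ∃ (h0 : ℝ) (V : Set (Fin d → ℝ)) (B : (Fin d → ℝ) → Fin d → ℝ),
      (∀ v ∈ V, ∀ i, 0 ≤ v i ∧ v i ≤ 1) ∧ volume V ≠ 0 ∧
      ∀ v ∈ V, ∀ τ : ℝ, 0 ≤ τ → τ < 1 / (2 * (d + 1)) →
        pt d (h0 + τ) (fun i => B v i + τ * v i) ∈ K := by
  have hw0 : ∀ v : Fin d → ℝ, (pt d 1 v) 0 = 1 := fun v => rfl
  have hws : ∀ (v : Fin d → ℝ) (i : Fin d), (pt d 1 v) (Fin.succ i) = v i := fun v i => rfl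
  have hnorm1 : ∀ v : Fin d → ℝ, 1 ≤ ‖pt d 1 v‖ := by
    intro v
    have := PiLp.norm_apply_le (pt d 1 v) 0
    rw [hw0] at this
    simpa using this
  have hex : ∀ v : Fin d → ℝ, ∃ a : EuclideanSpace ℝ (Fin (d + 1)),
      ∀ t ∈ Set.Icc (0 : ℝ) 1, a + t • (‖pt d 1 v‖⁻¹ • pt d 1 v) ∈ K := by
    intro v
    apply hK
    rw [norm_smul, norm_inv, norm_norm]
    exact inv_mul_cancel₀ (by have := hnorm1 v; positivity)
  choose a ha using hex
  obtain ⟨h, hh⟩ : ∃ h : ℝ, h = 1 / (2 * (d + 1)) := ⟨_, rfl⟩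
  have hhpos : 0 < h := by rw [hh]; positivity
  let V : ℤ → Set (Fin d → ℝ) := fun q => {v | (∀ i, 0 ≤ v i ∧ v i ≤ 1) ∧ ⌈a v 0 / h⌉ = q}
  have hVu : ⋃ q, V q = Set.Icc (0 : Fin d → ℝ) 1 := by
    ext v
    simp only [Set.mem_iUnion, Set.mem_Icc, V, Set.mem_ofPred_eq]
    constructor
    · rintro ⟨q, hq, -⟩
      exact ⟨fun i => (hq i).1, fun i => (hq i).2⟩
    · rintro ⟨h1, h2⟩
      exact ⟨_, fun i => ⟨h1 i, h2 i⟩, rfl⟩
  have hq : ∃ q, volume (V q) ≠ 0 := by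
    by_contra hcon
    push Not at hcon
    have h1 := measure_iUnion_null hcon
    rw [hVu, Real.volume_Icc_pi] at h1
    simp at h1
  obtain ⟨q, hq⟩ := hq
  refine ⟨q * h, V q, fun v i => a v (Fin.succ i) + (q * h - a v 0) * v i, fun v hv => hv.1, hq,
    ?_⟩
  intro v hv τ hτ0 hτ1
  obtain ⟨hv01, hvq⟩ := hv
  have hnle : ‖pt d 1 v‖ ≤ d + 1 := by
    rw [EuclideanSpace.norm_eq]
    apply Real.sqrt_le_iff.mpr
    refine ⟨by positivity, ?_⟩
    rw [Fin.sum_univ_succ]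
    have h1 : ∑ i : Fin d, ‖(pt d 1 v) (Fin.succ i)‖ ^ 2 ≤ ∑ _i : Fin d, (1 : ℝ) := by
      refine Finset.sum_le_sum fun i _ => ?_
      rw [hws, Real.norm_eq_abs, sq_abs]
      have := hv01 i
      nlinarith
    rw [Finset.sum_const, Finset.card_univ, Fintype.card_fin, nsmul_eq_mul, mul_one] at h1
    rw [hw0]
    have hdnn : (0 : ℝ) ≤ d := Nat.cast_nonneg d
    simp only [norm_one, one_pow]
    nlinarith
  have hq1 : a v 0 ≤ q * h := by
    have := Int.le_ceil (a v 0 / h)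
    rw [hvq, div_le_iff₀ hhpos] at this
    exact this
  have hq2 : q * h < a v 0 + h := by
    have := Int.ceil_lt_add_one (a v 0 / h)
    rw [hvq] at this
    have h1 : (q : ℝ) * h < (a v 0 / h + 1) * h := mul_lt_mul_of_pos_right this hhpos
    have h2 : (a v 0 / h + 1) * h = a v 0 + h := by
      field_simp
    linarith
  have hτ2 : τ < h := by rw [hh]; exact hτ1
  have h2h : 2 * h = 1 / (d + 1) := by
    rw [hh]
    have : (0 : ℝ) < d + 1 := by positivity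
    field_simp
  have h2 := ha v ((q * h + τ - a v 0) * ‖pt d 1 v‖) ⟨mul_nonneg (by linarith) (norm_nonneg _), by
      have h3 : q * h + τ - a v 0 ≤ 1 / (d + 1) := by linarith
      calc (q * h + τ - a v 0) * ‖pt d 1 v‖ ≤ 1 / (d + 1) * (d + 1) := by
            apply mul_le_mul h3 hnle (norm_nonneg _) (by positivity)
        _ = 1 := by field_simp⟩
  rw [smul_smul, mul_assoc, mul_inv_cancel₀ (by have := hnorm1 v; positivity), mul_one] at h2
  convert! h2 using 1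
  ext l
  refine Fin.cases ?_ (fun i => ?_) l
  · simp only [PiLp.add_apply, PiLp.smul_apply, smul_eq_mul, pt_zero]
    ring
  · simp only [PiLp.add_apply, PiLp.smul_apply, smul_eq_mul, pt_succ]
    ring

end Pool.Agent.W605.HD
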