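import Pool.Agent.W46.HD.Stm
import Pool.Agent.W605.HD.Cov

/-!
# HD-HAUS: Hausdorff dimension of Kakeya sets from the counting inequality `Dense`
-/

set_option autoImplicit false

open Finset MeasureTheory
open scoped Classical ENNReal NNReal

namespace Pool.Agent.W605.HD
open Pool.Agent.W46.HD

theorem coord_dist {m : ℕ} (x y : EuclideanSpace ℝ (Fin m)) (l : Fin m) :
    |x l - y l| ≤ dist x y := by
  rw [dist_eq_norm]
  have := PiLp.norm_apply_le (x - y) l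
  simpa using this

/-- the volume of a grid cube -/
theorem vol_cube (d n : ℕ) (hn : 1 ≤ n) (g : Fin d → ℤ) :
    volume {v : Fin d → ℝ | ∀ i, ⌊(n : ℝ) * v i⌋ = g i} ≤ ENNReal.ofReal ((1 / (n : ℝ)) ^ d) := by
  have hn0 : (0 : ℝ) < n := by exact_mod_cast hn
  have hsub : {v : Fin d → ℝ | ∀ i, ⌊(n : ℝ) * v i⌋ = g i} ⊆
      Set.pi Set.univ (fun i => Set.Ico ((g i : ℝ) / n) (((g i : ℝ) + 1) / n)) := by
    intro v hv i _
    have h := Int.floor_eq_iff.1 (hv i)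
    constructor
    · rw [div_le_iff₀ hn0]; linarith [h.1]
    · rw [lt_div_iff₀ hn0]; linarith [h.2]
  refine (measure_mono hsub).trans ?_
  rw [Real.volume_pi_Ico]
  have h1 : ∀ i : Fin d, ENNReal.ofReal (((g i : ℝ) + 1) / n - (g i : ℝ) / n)
      = ENNReal.ofReal (1 / (n : ℝ)) := by
    intro i
    congr 1
    ring
  rw [Finset.prod_congr rfl fun i _ => h1 i, Finset.prod_const, Finset.card_univ,
    Fintype.card_fin, ENNReal.ofReal_pow (by positivity)]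

/-- Discretization at the scale `2 ^ (-k)`. -/
theorem discrete (d k : ℕ) (h0 : ℝ) (W : Set (Fin d → ℝ))
    (hW : ∀ v ∈ W, ∀ i, 0 ≤ v i ∧ v i ≤ 1) (B : (Fin d → ℝ) → Fin d → ℝ)
    (t : ℕ → Set (EuclideanSpace ℝ (Fin (d + 1)))) (I : Finset ℕ)
    (ht : ∀ i ∈ I, ∀ x ∈ t i, ∀ y ∈ t i, dist x y ≤ (1 / 2 : ℝ) ^ k)
    (E : (Fin d → ℝ) → Set ℝ) (hE : ∀ v ∈ W, ∀ τ ∈ E v, (0 ≤ τ ∧ τ < 1) ∧
      ∃ i ∈ I, pt d (h0 + τ) (fun l => B v l + τ * v l) ∈ t i)
    (x1 x2 : ℝ) (hx1 : 0 < x1) (hx2 : 0 < x2) (h1 : ENNReal.ofReal x1 ≤ volume W)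
    (h2 : ∀ v ∈ W, ENNReal.ofReal x2 ≤ volume (E v)) :
    ∃ (Ω : Type) (_ : Fintype Ω) (_ : Nonempty Ω) (A D : Ω → Fin d → ℝ)
      (F : Ω → Finset (Fin (2 ^ k))), IsFam (2 ^ k) D ∧
      (∀ ω, x2 * ((2 ^ k : ℕ) : ℝ) ≤ ((F ω).card : ℝ)) ∧
      x1 * ((2 : ℝ) ^ k) ^ d ≤ (Fintype.card Ω : ℝ) ∧
      1 ≤ (∑ j : Fin (2 ^ k),
        (((Finset.univ.filter fun ω => j ∈ F ω).image (cell A D j)).card : ℝ)) ∧
      (∑ j : Fin (2 ^ k),
        (((Finset.univ.filter fun ω => j ∈ F ω).image (cell A D j)).card : ℝ)) ≤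
        4 ^ (d + 1) * (I.card : ℝ) := by
  obtain ⟨n, hn⟩ : ∃ n : ℕ, n = 2 ^ k := ⟨_, rfl⟩
  have hn1 : 1 ≤ n := by rw [hn]; exact Nat.one_le_two_pow
  have hn0 : (0 : ℝ) < n := by exact_mod_cast hn1
  have hhalf : (1 / 2 : ℝ) ^ k = 1 / (n : ℝ) := by
    rw [hn]; push_cast; rw [div_pow, one_pow]
  have hnR : (n : ℝ) = (2 : ℝ) ^ k := by rw [hn]; push_cast; rfl
  rw [hhalf] at ht
  rw [← hn, ← hnR]
  -- the grid cubes
  let fl : (Fin d → ℝ) → Fin d → ℤ := fun v i => ⌊(n : ℝ) * v i⌋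
  have hfin : (fl '' W).Finite := by
    apply Set.Finite.subset (Fintype.piFinset (fun _ : Fin d => Finset.Icc (0 : ℤ) n)).finite_toSet
    rintro g ⟨v, hv, rfl⟩
    rw [Finset.mem_coe, Fintype.mem_piFinset]
    intro i
    rw [Finset.mem_Icc]
    have h3 := hW v hv i
    constructor
    · exact Int.floor_nonneg.2 (mul_nonneg hn0.le h3.1)
    · have h4 : (n : ℝ) * v i ≤ (n : ℤ) := by
        push_cast
        nlinarith
      exact Int.cast_le.1 ((Int.floor_le _).trans h4)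
  obtain ⟨G, hG⟩ : ∃ G : Finset (Fin d → ℤ), G = hfin.toFinset := ⟨_, rfl⟩
  have hmemG : ∀ g, g ∈ G ↔ ∃ v ∈ W, fl v = g := by
    intro g
    rw [hG, Set.Finite.mem_toFinset]
    rfl
  have hex : ∀ ω : {g // g ∈ G}, ∃ v ∈ W, fl v = ω.1 := fun ω => (hmemG ω.1).1 ω.2
  choose D hDW hDfl using hex
  have hWne : W.Nonempty := by
    apply nonempty_of_measure_ne_zero (μ := volume)
    intro h
    rw [h, nonpos_iff_eq_zero, ENNReal.ofReal_eq_zero] at h1
    linarith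
  obtain ⟨v0, hv0⟩ := hWne
  have hne : Nonempty {g // g ∈ G} := ⟨⟨fl v0, (hmemG _).2 ⟨v0, hv0, rfl⟩⟩⟩
  have hfam : IsFam n D := ⟨hn1, fun ω i => (hW _ (hDW ω) i).1, fun ω i => (hW _ (hDW ω) i).2,
    fun ω ω' h => by
      apply Subtype.ext
      rw [← hDfl ω, ← hDfl ω']
      exact funext h⟩
  have hcardG : x1 * (n : ℝ) ^ d ≤ (Fintype.card {g // g ∈ G} : ℝ) := by
    have hsub : W ⊆ ⋃ g ∈ G, {v : Fin d → ℝ | ∀ i, ⌊(n : ℝ) * v i⌋ = g i} := by
      intro v hv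
      rw [Set.mem_iUnion₂]
      exact ⟨fl v, (hmemG _).2 ⟨v, hv, rfl⟩, fun i => rfl⟩
    have h3 : ENNReal.ofReal x1 ≤ ENNReal.ofReal ((G.card : ℝ) * (1 / (n : ℝ)) ^ d) := by
      calc ENNReal.ofReal x1 ≤ volume W := h1
        _ ≤ volume (⋃ g ∈ G, {v : Fin d → ℝ | ∀ i, ⌊(n : ℝ) * v i⌋ = g i}) := measure_mono hsub
        _ ≤ ∑ g ∈ G, volume {v : Fin d → ℝ | ∀ i, ⌊(n : ℝ) * v i⌋ = g i} :=
            measure_biUnion_finset_le _ _
        _ ≤ ∑ _g ∈ G, ENNReal.ofReal ((1 / (n : ℝ)) ^ d) :=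
            Finset.sum_le_sum fun g _ => vol_cube d n hn1 g
        _ = _ := by
            rw [Finset.sum_const, nsmul_eq_mul, ENNReal.ofReal_mul (by positivity),
              ENNReal.ofReal_natCast]
    have h4 := (ENNReal.ofReal_le_ofReal_iff (by positivity)).1 h3
    rw [Fintype.card_coe]
    calc x1 * (n : ℝ) ^ d ≤ ((G.card : ℝ) * (1 / (n : ℝ)) ^ d) * (n : ℝ) ^ d :=
          mul_le_mul_of_nonneg_right h4 (by positivity)
      _ = (G.card : ℝ) * ((1 / (n : ℝ)) * n) ^ d := by rw [mul_pow]; ring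
      _ = G.card := by
          rw [one_div, inv_mul_cancel₀ hn0.ne', one_pow, mul_one]
  -- the heights
  let F : {g // g ∈ G} → Finset (Fin n) := fun ω =>
    Finset.univ.filter fun j : Fin n => ∃ τ ∈ E (D ω), ((j : ℕ) : ℝ) ≤ n * τ ∧
      n * τ < ((j : ℕ) : ℝ) + 1
  have hF : ∀ ω, x2 * (n : ℝ) ≤ ((F ω).card : ℝ) := by
    intro ω
    have hsub : E (D ω) ⊆ ⋃ j ∈ F ω, Set.Ico (((j : ℕ) : ℝ) / n) ((((j : ℕ) : ℝ) + 1) / n) := by
      intro τ hτ
      have h3 := (hE (D ω) (hDW ω) τ hτ).1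
      have h4 : 0 ≤ (n : ℝ) * τ := mul_nonneg hn0.le h3.1
      have h5 : (n : ℝ) * τ < n := by nlinarith [h3.2]
      have h6 : ⌊(n : ℝ) * τ⌋₊ < n := (Nat.floor_lt h4).2 h5
      rw [Set.mem_iUnion₂]
      refine ⟨⟨⌊(n : ℝ) * τ⌋₊, h6⟩, Finset.mem_filter.2 ⟨Finset.mem_univ _, τ, hτ,
        Nat.floor_le h4, Nat.lt_floor_add_one _⟩, ?_, ?_⟩
      · rw [div_le_iff₀ hn0]
        have h7 : ((⌊(n : ℝ) * τ⌋₊ : ℕ) : ℝ) ≤ n * τ := Nat.floor_le h4
        linarith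
      · rw [lt_div_iff₀ hn0]
        have h7 : (n : ℝ) * τ < ((⌊(n : ℝ) * τ⌋₊ : ℕ) : ℝ) + 1 := Nat.lt_floor_add_one _
        linarith
    have h3 : ENNReal.ofReal x2 ≤ ENNReal.ofReal (((F ω).card : ℝ) * (1 / (n : ℝ))) := by
      calc ENNReal.ofReal x2 ≤ volume (E (D ω)) := h2 _ (hDW ω)
        _ ≤ volume (⋃ j ∈ F ω, Set.Ico (((j : ℕ) : ℝ) / n) ((((j : ℕ) : ℝ) + 1) / n)) :=
            measure_mono hsub
        _ ≤ ∑ j ∈ F ω, volume (Set.Ico (((j : ℕ) : ℝ) / n) ((((j : ℕ) : ℝ) + 1) / n)) :=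
            measure_biUnion_finset_le _ _
        _ = ∑ _j ∈ F ω, ENNReal.ofReal (1 / (n : ℝ)) := Finset.sum_congr rfl fun j _ => by
            rw [Real.volume_Ico]
            congr 1
            ring
        _ = _ := by
            rw [Finset.sum_const, nsmul_eq_mul, ENNReal.ofReal_mul (by positivity),
              ENNReal.ofReal_natCast]
    have h4 := (ENNReal.ofReal_le_ofReal_iff (by positivity)).1 h3
    calc x2 * (n : ℝ) ≤ (((F ω).card : ℝ) * (1 / (n : ℝ))) * n :=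
          mul_le_mul_of_nonneg_right h4 hn0.le
      _ = (F ω).card := by field_simp
  -- the cells
  let A : {g // g ∈ G} → Fin d → ℝ := fun ω l => n * B (D ω) l
  let base : Fin (d + 1) → ℝ := Fin.cons h0 (fun _ => 0)
  let x : ℕ → EuclideanSpace ℝ (Fin (d + 1)) := fun i => if h : (t i).Nonempty then h.some else 0
  have hx : ∀ i, (t i).Nonempty → x i ∈ t i := by
    intro i h
    simp only [x, dif_pos h]
    exact h.some_mem
  let f : ℕ → Fin (d + 1) → ℤ := fun i l => ⌊(n : ℝ) * (x i l - base l)⌋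
  obtain ⟨Z, hZ⟩ : ∃ Z : Finset (Fin (d + 1) → ℤ),
    Z = I.biUnion (fun i => Fintype.piFinset (fun l => Finset.Icc (f i l - 2) (f i l + 1))) :=
    ⟨_, rfl⟩
  have hZcard : Z.card ≤ 4 ^ (d + 1) * I.card := by
    rw [hZ]
    refine Finset.card_biUnion_le.trans ?_
    have h3 : ∀ i ∈ I, (Fintype.piFinset (fun l => Finset.Icc (f i l - 2) (f i l + 1))).card
        = 4 ^ (d + 1) := by
      intro i _
      rw [Fintype.card_piFinset]
      have h4 : ∀ l : Fin (d + 1), (Finset.Icc (f i l - 2) (f i l + 1)).card = 4 := by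
        intro l
        rw [Int.card_Icc]
        have : f i l + 1 + 1 - (f i l - 2) = 4 := by ring
        rw [this]
        rfl
      rw [Finset.prod_congr rfl fun l _ => h4 l, Finset.prod_const, Finset.card_univ,
        Fintype.card_fin]
    rw [Finset.sum_congr rfl h3, Finset.sum_const, smul_eq_mul, mul_comm]
  have hkey : ∀ (ω : {g // g ∈ G}) (j : Fin n), j ∈ F ω →
      (Fin.cons ((j : ℕ) : ℤ) (cell A D j ω) : Fin (d + 1) → ℤ) ∈ Z := by
    intro ω j hj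
    obtain ⟨-, τ, hτE, hτ1, hτ2⟩ := Finset.mem_filter.1 hj
    obtain ⟨-, i, hiI, hmem⟩ := hE (D ω) (hDW ω) τ hτE
    have hdist := ht i hiI _ hmem _ (hx i ⟨_, hmem⟩)
    have hco : ∀ l, |(n : ℝ) * (pt d (h0 + τ) (fun l => B (D ω) l + τ * D ω l) l - base l)
        - n * (x i l - base l)| ≤ 1 := by
      intro l
      have h3 := (coord_dist _ _ l).trans hdist
      have h4 : (n : ℝ) * (pt d (h0 + τ) (fun l => B (D ω) l + τ * D ω l) l - base l)
        - n * (x i l - base l) = n * (pt d (h0 + τ) (fun l => B (D ω) l + τ * D ω l) l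
          - x i l) := by ring
      rw [h4, abs_mul, abs_of_pos hn0]
      calc (n : ℝ) * |pt d (h0 + τ) (fun l => B (D ω) l + τ * D ω l) l - x i l|
          ≤ n * (1 / n) := mul_le_mul_of_nonneg_left h3 hn0.le
        _ = 1 := by field_simp
    rw [hZ, Finset.mem_biUnion]
    refine ⟨i, hiI, ?_⟩
    rw [Fintype.mem_piFinset]
    intro l
    rw [Finset.mem_Icc]
    refine Fin.cases ?_ (fun l' => ?_) l
    · have h3 := abs_le.1 (hco 0)
      have h4 : base 0 = h0 := rfl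
      rw [pt_zero, h4] at h3
      have h5 := Int.floor_le ((n : ℝ) * (x i 0 - base 0))
      have h6 := Int.lt_floor_add_one ((n : ℝ) * (x i 0 - base 0))
      rw [Fin.cons_zero]
      have h7 : ((f i 0 : ℤ) : ℝ) ≤ (n : ℝ) * (x i 0 - h0) := h5
      have h8 : (n : ℝ) * (x i 0 - h0) < ((f i 0 : ℤ) : ℝ) + 1 := h6
      constructor
      · have h9 : (((f i 0 - 2 : ℤ)) : ℝ) < (((j : ℕ) : ℤ) : ℝ) := by
          push_cast
          nlinarith [h3.1, h3.2]
        exact (Int.cast_lt.1 h9).le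
      · have h9 : (((j : ℕ) : ℤ) : ℝ) < (((f i 0 + 2 : ℤ)) : ℝ) := by
          push_cast
          nlinarith [h3.1, h3.2]
        have h10 := Int.cast_lt.1 h9
        omega
    · have h3 := abs_le.1 (hco (Fin.succ l'))
      have h4 : base (Fin.succ l') = 0 := rfl
      rw [pt_succ, h4, sub_zero, sub_zero] at h3
      have h5 := Int.floor_le ((n : ℝ) * (x i (Fin.succ l') - base (Fin.succ l')))
      have h6 := Int.lt_floor_add_one ((n : ℝ) * (x i (Fin.succ l') - base (Fin.succ l')))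
      rw [h4, sub_zero] at h5 h6
      have h7 : ((f i (Fin.succ l') : ℤ) : ℝ) ≤ (n : ℝ) * x i (Fin.succ l') := by
        simp only [f, h4, sub_zero]
        exact h5
      have h8 : (n : ℝ) * x i (Fin.succ l') < ((f i (Fin.succ l') : ℤ) : ℝ) + 1 := by
        simp only [f, h4, sub_zero]
        exact h6
      rw [Fin.cons_succ]
      have h9 := Int.floor_le (A ω l' + ((j : ℕ) : ℝ) * D ω l')
      have h10 := Int.lt_floor_add_one (A ω l' + ((j : ℕ) : ℝ) * D ω l')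
      have h11 : cell A D j ω l' = ⌊A ω l' + ((j : ℕ) : ℝ) * D ω l'⌋ := rfl
      have h12 : A ω l' = n * B (D ω) l' := rfl
      rw [← h11, h12] at h9 h10
      have h13 := hW _ (hDW ω) l'
      have h14 : 0 ≤ (n * τ - ((j : ℕ) : ℝ)) * D ω l' := mul_nonneg (by linarith) h13.1
      have h15 : (n * τ - ((j : ℕ) : ℝ)) * D ω l' ≤ 1 := by
        have : (n * τ - ((j : ℕ) : ℝ)) * D ω l' ≤ 1 * 1 :=
          mul_le_mul (by linarith) h13.2 h13.1 (by norm_num)
        linarith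
      have h16 : (n : ℝ) * (B (D ω) l' + τ * D ω l') = (n * B (D ω) l' + ((j : ℕ) : ℝ) * D ω l')
        + (n * τ - ((j : ℕ) : ℝ)) * D ω l' := by ring
      rw [h16] at h3
      constructor
      · have h17 : (((f i (Fin.succ l') - 3 : ℤ)) : ℝ) < ((cell A D j ω l' : ℤ) : ℝ) := by
          push_cast
          linarith [h3.1, h3.2]
        have h18 := Int.cast_lt.1 h17
        omega
      · have h17 : ((cell A D j ω l' : ℤ) : ℝ) < (((f i (Fin.succ l') + 2 : ℤ)) : ℝ) := by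
          push_cast
          linarith [h3.1, h3.2]
        have h18 := Int.cast_lt.1 h17
        omega
  have hle : ∀ j : Fin n, ((Finset.univ.filter fun ω => j ∈ F ω).image (cell A D j)).card ≤
      (Z.filter (fun z => z 0 = ((j : ℕ) : ℤ))).card := by
    intro j
    apply Finset.card_le_card_of_injOn (fun c => (Fin.cons ((j : ℕ) : ℤ) c : Fin (d + 1) → ℤ))
    · intro c hc
      rw [Finset.mem_coe, Finset.mem_image] at hc
      obtain ⟨ω, hω, rfl⟩ := hc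
      rw [Finset.mem_coe, Finset.mem_filter]
      exact ⟨hkey ω j (Finset.mem_filter.1 hω).2, Fin.cons_zero _ _⟩
    · intro c _ c' _ hcc
      exact (Fin.cons_inj.1 hcc).2
  have hsumle : ∑ j : Fin n, ((Finset.univ.filter fun ω => j ∈ F ω).image (cell A D j)).card ≤
      4 ^ (d + 1) * I.card := by
    refine (Finset.sum_le_sum fun j _ => hle j).trans ?_
    rw [← Finset.card_biUnion]
    · refine (Finset.card_le_card ?_).trans hZcard
      intro z hz
      rw [Finset.mem_biUnion] at hz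
      obtain ⟨j, -, hj⟩ := hz
      exact (Finset.mem_filter.1 hj).1
    · intro j _ j' _ hjj
      rw [Function.onFun, Finset.disjoint_left]
      intro z hz hz'
      apply hjj
      have h3 := (Finset.mem_filter.1 hz).2
      have h4 := (Finset.mem_filter.1 hz').2
      rw [h3] at h4
      exact Fin.ext (by exact_mod_cast h4)
  refine ⟨{g // g ∈ G}, inferInstance, hne, A, D, F, hfam, hF, hcardG, ?_, ?_⟩
  · obtain ⟨ω0⟩ := hne
    have h3 : 0 < ((F ω0).card : ℝ) := lt_of_lt_of_le (mul_pos hx2 hn0) (hF ω0)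
    have h4 : 0 < (F ω0).card := by exact_mod_cast h3
    obtain ⟨j0, hj0⟩ := Finset.card_pos.1 h4
    have h5 : 0 < ((Finset.univ.filter fun ω => j0 ∈ F ω).image (cell A D j0)).card := by
      rw [Finset.card_pos]
      exact ⟨_, Finset.mem_image_of_mem _ (Finset.mem_filter.2 ⟨Finset.mem_univ ω0, hj0⟩)⟩
    have h6 : ((Finset.univ.filter fun ω => j0 ∈ F ω).image (cell A D j0)).card ≤
        ∑ j : Fin n, ((Finset.univ.filter fun ω => j ∈ F ω).image (cell A D j)).card :=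
      Finset.single_le_sum (f := fun j : Fin n =>
        ((Finset.univ.filter fun ω => j ∈ F ω).image (cell A D j)).card)
        (fun j _ => Nat.zero_le _) (Finset.mem_univ j0)
    have h7 : 1 ≤ ∑ j : Fin n, ((Finset.univ.filter fun ω => j ∈ F ω).image (cell A D j)).card :=
      le_trans h5 h6
    exact_mod_cast h7
  · exact_mod_cast hsumle

/-- the final numerical contradiction -/
theorem numeric {c C γ α ρ η L x1 x2 N S : ℝ} {d k : ℕ} (hc : 1 ≤ c) (hC : 0 ≤ C)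
    (hγ : γ = d - c * (α - 1)) (hη : η = γ * Real.log 2 / (2 * (1 + C)))
    (hρ : ρ = Real.exp (-η)) (hx1 : 0 < x1) (hx2 : 0 < x2)
    (hL : L = c * ((d + 1) * Real.log 4 + α * Real.log 2) + C * (1 - Real.log x2) - Real.log x1)
    (hk : L < γ * Real.log 2 / 2 * k)
    (hN : x1 * ρ ^ k * ((2 : ℝ) ^ k) ^ d ≤ N)
    (hS1 : 1 ≤ S) (hS : S ≤ 4 ^ (d + 1) * (2 : ℝ) ^ (α * (k + 1)))
    (hD : Real.log N ≤ c * Real.log (S / ((2 ^ k : ℕ) : ℝ)) +
      C * (1 + Real.log (1 / (x2 * ρ ^ k)))) : False := by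
  have hρ0 : 0 < ρ := by rw [hρ]; exact Real.exp_pos _
  have hlρ : Real.log (ρ ^ k) = -(k * η) := by
    rw [Real.log_pow, hρ, Real.log_exp]; ring
  have h1 : Real.log x1 - k * η + d * (k * Real.log 2) ≤ Real.log N := by
    have h2 := Real.log_le_log (by positivity) hN
    rw [Real.log_mul (by positivity) (by positivity), Real.log_mul hx1.ne' (by positivity), hlρ,
      Real.log_pow, Real.log_pow] at h2
    linarith
  have h2 : Real.log (S / ((2 ^ k : ℕ) : ℝ)) ≤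
      (d + 1) * Real.log 4 + α * (k + 1) * Real.log 2 - k * Real.log 2 := by
    rw [Real.log_div (by linarith) (by positivity)]
    have h3 := Real.log_le_log (by linarith) hS
    rw [Real.log_mul (by positivity) (by positivity), Real.log_pow,
      Real.log_rpow (by norm_num)] at h3
    push_cast at h3 ⊢
    rw [Real.log_pow]
    linarith
  have h3 : Real.log (1 / (x2 * ρ ^ k)) = -Real.log x2 + k * η := by
    rw [one_div, Real.log_inv, Real.log_mul hx2.ne' (by positivity), hlρ]; ring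
  rw [h3] at hD
  have h4 : c * Real.log (S / ((2 ^ k : ℕ) : ℝ)) ≤
      c * ((d + 1) * Real.log 4 + α * (k + 1) * Real.log 2 - k * Real.log 2) :=
    mul_le_mul_of_nonneg_left h2 (by linarith)
  have h5 : (1 + C) * η = γ * Real.log 2 / 2 := by
    rw [hη]
    have : (1 + C) ≠ 0 := by linarith
    field_simp
  have h6 : γ * Real.log 2 * k ≤ k * ((1 + C) * η) + L := by
    rw [hL, hγ]
    nlinarith
  rw [h5] at h6
  nlinarith

theorem HAUS : S_HAUS := by
  intro c hc hDense d K hK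
  obtain ⟨C, hC0, hC⟩ := hDense d
  by_contra hcon
  rw [not_le] at hcon
  obtain ⟨α, hα1, hα2⟩ := ENNReal.lt_iff_exists_nnreal_btwn.1 hcon
  have hc0 : (0 : ℝ) < c := by linarith
  have hα3 : (α : ℝ) < 1 + d / c := by
    have h1 : ENNReal.ofReal (α : ℝ) < ENNReal.ofReal (1 + d / c) := by
      rwa [ENNReal.ofReal_coe_nnreal]
    exact (ENNReal.ofReal_lt_ofReal_iff (by positivity)).1 h1
  obtain ⟨γ, hγ⟩ : ∃ γ : ℝ, γ = d - c * (α - 1) := ⟨_, rfl⟩
  have hγ0 : 0 < γ := by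
    rw [hγ]
    have h1 : ((α : ℝ) - 1) * c < d := by
      rw [← lt_div_iff₀ hc0]
      linarith
    linarith
  have hlog2 : 0 < Real.log 2 := Real.log_pos (by norm_num)
  obtain ⟨η, hη⟩ : ∃ η : ℝ, η = γ * Real.log 2 / (2 * (1 + C)) := ⟨_, rfl⟩
  have hη0 : 0 < η := by rw [hη]; positivity
  obtain ⟨ρ, hρ⟩ : ∃ ρ : ℝ, ρ = Real.exp (-η) := ⟨_, rfl⟩
  have hρ0 : 0 < ρ := by rw [hρ]; exact Real.exp_pos _
  have hρ1 : ρ < 1 := by
    rw [hρ, Real.exp_lt_one_iff]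
    linarith
  obtain ⟨h0, V, B, hV01, hVpos, hVK⟩ := slopes d K hK
  have hVfin : volume V ≠ ⊤ := by
    have h1 : V ⊆ Set.Icc (0 : Fin d → ℝ) 1 := fun v hv =>
      ⟨fun i => (hV01 v hv i).1, fun i => (hV01 v hv i).2⟩
    refine ne_top_of_le_ne_top ?_ (measure_mono h1)
    rw [Real.volume_Icc_pi]
    simp
  obtain ⟨y1, hy1⟩ : ∃ y : ℝ, y = (volume V).toReal := ⟨_, rfl⟩
  have hy1pos : 0 < y1 := by rw [hy1]; exact ENNReal.toReal_pos hVpos hVfin
  have hy1V : ENNReal.ofReal y1 ≤ volume V := by rw [hy1]; exact ENNReal.ofReal_toReal_le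
  obtain ⟨y2, hy2⟩ : ∃ y : ℝ, y = 1 / (2 * ((d : ℝ) + 1)) := ⟨_, rfl⟩
  have hy2pos : 0 < y2 := by rw [hy2]; positivity
  have hy2le : y2 ≤ 1 := by
    rw [hy2, div_le_one (by positivity)]
    have : (0 : ℝ) ≤ d := Nat.cast_nonneg d
    linarith
  have h1ρ : 0 < 1 - ρ := by linarith
  obtain ⟨x1, hx1⟩ : ∃ x : ℝ, x = y1 * (1 - ρ) / 2 := ⟨_, rfl⟩
  obtain ⟨x2, hx2⟩ : ∃ x : ℝ, x = y2 * (1 - ρ) / 2 := ⟨_, rfl⟩
  have hx1pos : 0 < x1 := by rw [hx1]; positivity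
  have hx2pos : 0 < x2 := by rw [hx2]; positivity
  obtain ⟨L, hL⟩ : ∃ L : ℝ, L = c * ((d + 1) * Real.log 4 + α * Real.log 2) +
    C * (1 - Real.log x2) - Real.log x1 := ⟨_, rfl⟩
  obtain ⟨k0, hk0⟩ : ∃ k0 : ℕ, L < γ * Real.log 2 / 2 * k0 := by
    have hpos : 0 < γ * Real.log 2 / 2 := by positivity
    obtain ⟨m, hm⟩ := exists_nat_gt (L / (γ * Real.log 2 / 2))
    refine ⟨m, ?_⟩
    rw [div_lt_iff₀ hpos] at hm
    linarith
  obtain ⟨t, κ, ht1, ht2, ht3, ht4⟩ := cover K α hα1 k0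
  let E : ℕ → (Fin d → ℝ) → Set ℝ := fun k v => {τ | (0 ≤ τ ∧ τ < y2) ∧
    ∃ i, κ i = k ∧ pt d (h0 + τ) (fun l => B v l + τ * v l) ∈ t i}
  have hcovE : ∀ v ∈ V, Set.Ico (0 : ℝ) y2 ⊆ ⋃ k, E k v := by
    intro v hv τ hτ
    have h1 := hVK v hv τ hτ.1 (by rw [← hy2]; exact hτ.2)
    obtain ⟨i, hi⟩ := Set.mem_iUnion.1 (ht1 h1)
    exact Set.mem_iUnion.2 ⟨κ i, ⟨hτ.1, hτ.2⟩, i, rfl, hi⟩
  obtain ⟨k, hk⟩ := pigeon volume V (fun k => {v | v ∈ V ∧
    ENNReal.ofReal (x2 * ρ ^ k) ≤ volume (E k v)}) (by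
      intro v hv
      obtain ⟨k, hk⟩ := pigeon volume (Set.Ico (0 : ℝ) y2) (fun k => E k v) (hcovE v hv) y2 ρ
        hy2pos hρ0 hρ1 (by rw [Real.volume_Ico, sub_zero])
      rw [← hx2] at hk
      exact Set.mem_iUnion.2 ⟨k, hv, hk⟩) y1 ρ hy1pos hρ0 hρ1 hy1V
  rw [← hx1] at hk
  have hx1k : 0 < x1 * ρ ^ k := by positivity
  have hx2k : 0 < x2 * ρ ^ k := by positivity
  -- `k0 ≤ k`
  have hkk0 : k0 ≤ k := by
    have hne : ({v | v ∈ V ∧ ENNReal.ofReal (x2 * ρ ^ k) ≤ volume (E k v)} :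
        Set (Fin d → ℝ)).Nonempty := by
      apply nonempty_of_measure_ne_zero (μ := volume)
      intro h
      rw [h, nonpos_iff_eq_zero, ENNReal.ofReal_eq_zero] at hk
      linarith
    obtain ⟨v, hv, hvE⟩ := hne
    have hne2 : (E k v).Nonempty := by
      apply nonempty_of_measure_ne_zero (μ := volume)
      intro h
      rw [h, nonpos_iff_eq_zero, ENNReal.ofReal_eq_zero] at hvE
      linarith
    obtain ⟨τ, -, i, hi, -⟩ := hne2
    rw [← hi]
    exact ht2 i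
  -- the sets of scale `k`
  have hfin : {i : ℕ | κ i = k}.Finite := by
    by_contra hinf
    obtain ⟨m, hm⟩ := exists_nat_gt ((2 : ℝ) ^ ((α : ℝ) * (k + 1)))
    obtain ⟨S, hS1, hS2⟩ := Set.Infinite.exists_subset_card_eq hinf m
    have h1 := ht4 k S (fun i hi => hS1 hi)
    rw [hS2] at h1
    linarith
  have hI : ∀ i, i ∈ hfin.toFinset ↔ κ i = k := by
    intro i
    rw [Set.Finite.mem_toFinset]
    rfl
  obtain ⟨Ω, _, _, A, D, F, hfam, hF, hcard, hS1, hS2⟩ := discrete d k h0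
    {v | v ∈ V ∧ ENNReal.ofReal (x2 * ρ ^ k) ≤ volume (E k v)} (fun v hv => hV01 v hv.1) B t
    hfin.toFinset (fun i hi x hx y hy => by
      have h1 := ht3 i x hx y hy
      rwa [(hI i).1 hi] at h1) (E k)
    (fun v _ τ hτ => ⟨⟨hτ.1.1, lt_of_lt_of_le hτ.1.2 hy2le⟩, by
      obtain ⟨i, hi1, hi2⟩ := hτ.2
      exact ⟨i, (hI i).2 hi1, hi2⟩⟩) (x1 * ρ ^ k) (x2 * ρ ^ k) hx1k hx2k hk
    (fun v hv => hv.2)
  have hDk := hC (2 ^ k) Ω A D hfam F (x2 * ρ ^ k) hx2k hF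
  have hIcard := ht4 k hfin.toFinset fun i hi => (hI i).1 hi
  refine numeric hc hC0 hγ hη hρ hx1pos hx2pos hL ?_ hcard hS1 (hS2.trans ?_) hDk
  · refine hk0.trans_le (mul_le_mul_of_nonneg_left ?_ (by positivity))
    exact_mod_cast hkk0
  · exact mul_le_mul_of_nonneg_left hIcard (by positivity)

end Pool.Agent.W605.HD
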